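import Pool.Agent.K1H22.SR.Stm2

/-! Project SR2 (helper22), piece LETI: subdivision of the labels in a free product into letters.
Adaptation of `K1H90/SR/Let.lean` (helper90). -/

set_option autoImplicit false
set_option linter.unusedSectionVars false

namespace Pool.Agent.K1H75.SR2

open Pool.Agent.K1H22.SR2

section

variable {I : Type} {K : I → Type} [∀ i, Group (K i)] {M T : Type} [AddCommMonoid M]

/-- the element of a letter -/
def o (a : Σ i, K i) : Monoid.CoprodI K := Monoid.CoprodI.of a.2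

theorem exists_word (g : Monoid.CoprodI K) : ∃ l : List (Σ i, K i), (l.map o).prod = g := by
  induction g using Monoid.CoprodI.induction_on with
  | one => exact ⟨[], rfl⟩
  | of i m => exact ⟨[⟨i, m⟩], by simp [o]⟩
  | mul x y hx hy =>
    obtain ⟨l, rfl⟩ := hx
    obtain ⟨l', rfl⟩ := hy
    exact ⟨l ++ l', by rw [List.map_append, List.prod_append]⟩

/-- a word for `g` -/
noncomputable def wd (g : Monoid.CoprodI K) : List (Σ i, K i) := (exists_word g).choose

theorem wd_prod (g : Monoid.CoprodI K) : ((wd g).map o).prod = g := (exists_word g).choose_spec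

open Classical in
/-- the transitions -/
noncomputable def trn (i0 : I) (E : Finset (T × Monoid.CoprodI K × M × T)) :
    Finset ((T × List (Σ i, K i)) × (Σ i, K i) × M × (T × List (Σ i, K i))) :=
  E.image (fun e => ((e.1, []), ⟨i0, 1⟩, e.2.2.1, (e.2.2.2, wd e.2.1))) ∪
    E.biUnion fun e => ((wd e.2.1).tails).toFinset.biUnion fun l =>
      match l with
      | [] => ∅
      | a :: r => {((e.2.2.2, a :: r), a, 0, (e.2.2.2, r))}

theorem mem_trn (i0 : I) (E : Finset (T × Monoid.CoprodI K × M × T))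
    (x : (T × List (Σ i, K i)) × (Σ i, K i) × M × (T × List (Σ i, K i))) :
    x ∈ trn i0 E ↔ (∃ p g v p', (p, g, v, p') ∈ E ∧ x = ((p, []), ⟨i0, 1⟩, v, (p', wd g))) ∨
      ∃ p g v p' a r, (p, g, v, p') ∈ E ∧ (a :: r) <:+ wd g ∧
        x = ((p', a :: r), a, 0, (p', r)) := by
  classical
  unfold trn
  rw [Finset.mem_union, Finset.mem_image, Finset.mem_biUnion]
  constructor
  · rintro (⟨⟨p, g, v, p'⟩, he, rfl⟩ | ⟨⟨p, g, v, p'⟩, he, hx⟩)
    · exact Or.inl ⟨p, g, v, p', he, rfl⟩
    · rw [Finset.mem_biUnion] at hx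
      obtain ⟨l, hl, hx⟩ := hx
      rw [List.mem_toFinset, List.mem_tails] at hl
      cases l with
      | nil => simp at hx
      | cons a r =>
        rw [Finset.mem_singleton] at hx
        exact Or.inr ⟨p, g, v, p', a, r, he, hl, hx⟩
  · rintro (⟨p, g, v, p', he, rfl⟩ | ⟨p, g, v, p', a, r, he, hl, rfl⟩)
    · exact Or.inl ⟨(p, g, v, p'), he, rfl⟩
    · refine Or.inr ⟨(p, g, v, p'), he, ?_⟩
      rw [Finset.mem_biUnion]
      refine ⟨a :: r, ?_, ?_⟩
      · rw [List.mem_toFinset, List.mem_tails]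
        exact hl
      · exact Finset.mem_singleton_self _

theorem o_one (i0 : I) : o (⟨i0, 1⟩ : Σ i, K i) = 1 := map_one _

theorem fwd (i0 : I) (E : Finset (T × Monoid.CoprodI K × M × T))
    {P Q : T × List (Σ i, K i)} {l : List (Σ i, K i)} {v : M} (h : LP (trn i0 E) P Q l v) :
    Q.2 = [] → ∃ h : Monoid.CoprodI K, GW E P.1 Q.1 h v ∧
      (l.map o).prod = (P.2.map o).prod * h := by
  induction h with
  | nil =>
    intro hQ
    refine ⟨1, GW.nil, ?_⟩
    rw [hQ]
    simp
  | cons hmem hp ih =>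
    intro hQ
    obtain ⟨h, h1, h2⟩ := ih hQ
    rcases (mem_trn i0 E _).1 hmem with ⟨p, g, v, p', he, hx⟩ | ⟨p, g, v, p', a, r, he, hl, hx⟩
    · obtain ⟨x1, x2⟩ := Prod.mk.inj hx
      obtain ⟨x2, x3⟩ := Prod.mk.inj x2
      obtain ⟨x3, x4⟩ := Prod.mk.inj x3
      subst x1 x2 x3 x4
      refine ⟨g * h, GW.cons he h1, ?_⟩
      rw [List.map_cons, List.prod_cons, h2, o_one, wd_prod]
      simp
    · obtain ⟨x1, x2⟩ := Prod.mk.inj hx
      obtain ⟨x2, x3⟩ := Prod.mk.inj x2
      obtain ⟨x3, x4⟩ := Prod.mk.inj x3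
      subst x1 x2 x3 x4
      refine ⟨h, ?_, ?_⟩
      · rw [zero_add]
        exact h1
      · rw [List.map_cons, List.prod_cons, h2]
        show _ = (List.map o (_ :: _)).prod * h
        rw [List.map_cons, List.prod_cons, mul_assoc]

theorem row (i0 : I) (E : Finset (T × Monoid.CoprodI K × M × T)) {p p' : T}
    {g : Monoid.CoprodI K} {v w : M} (he : (p, g, v, p') ∈ E) {Q : T × List (Σ i, K i)}
    {l : List (Σ i, K i)} (h : LP (trn i0 E) (p', []) Q l w) :
    ∀ s : List (Σ i, K i), s <:+ wd g → LP (trn i0 E) (p', s) Q (s ++ l) w := by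
  intro s
  induction s with
  | nil => intro _; exact h
  | cons a r ih =>
    intro hs
    have h1 := ih ((List.suffix_cons a r).trans hs)
    have h2 : ((p', a :: r), a, (0 : M), (p', r)) ∈ trn i0 E :=
      (mem_trn i0 E _).2 (Or.inr ⟨p, g, v, p', a, r, he, hs, rfl⟩)
    have h3 := LP.cons h2 h1
    rw [zero_add] at h3
    exact h3

theorem bwd (i0 : I) (E : Finset (T × Monoid.CoprodI K × M × T)) {p q : T}
    {h : Monoid.CoprodI K} {v : M} (hg : GW E p q h v) :
    ∃ l, LP (trn i0 E) (p, []) (q, []) l v ∧ (l.map o).prod = h := by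
  induction hg with
  | nil => exact ⟨[], LP.nil, rfl⟩
  | @cons p p' q g h v w he hp ih =>
    obtain ⟨l, h1, h2⟩ := ih
    refine ⟨⟨i0, 1⟩ :: (wd g ++ l), ?_, ?_⟩
    · refine LP.cons (p' := (p', wd g))
        ((mem_trn i0 E _).2 (Or.inl ⟨p, g, v, p', he, rfl⟩)) ?_
      exact row i0 E he h1 (wd g) List.suffix_rfl
    · rw [List.map_cons, List.prod_cons, List.map_append, List.prod_append, wd_prod, h2, o_one,
        one_mul]

/-! ### restriction to finitely many states -/

open Classical in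
/-- the states which occur, and `P`, `Q` -/
noncomputable def st (E : Finset (T × (Σ i, K i) × M × T)) (P Q : T) : Finset T :=
  insert P (insert Q (E.image (fun e => e.1) ∪ E.image (fun e => e.2.2.2)))

theorem st_fst {E : Finset (T × (Σ i, K i) × M × T)} (P Q : T) {e : T × (Σ i, K i) × M × T}
    (he : e ∈ E) : e.1 ∈ st E P Q := by
  classical
  unfold st
  exact Finset.mem_insert_of_mem (Finset.mem_insert_of_mem
    (Finset.mem_union_left _ (Finset.mem_image_of_mem (fun e => e.1) he)))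

theorem st_snd {E : Finset (T × (Σ i, K i) × M × T)} (P Q : T) {e : T × (Σ i, K i) × M × T}
    (he : e ∈ E) : e.2.2.2 ∈ st E P Q := by
  classical
  unfold st
  exact Finset.mem_insert_of_mem (Finset.mem_insert_of_mem
    (Finset.mem_union_right _ (Finset.mem_image_of_mem (fun e => e.2.2.2) he)))

theorem st_left (E : Finset (T × (Σ i, K i) × M × T)) (P Q : T) : P ∈ st E P Q := by
  classical
  unfold st
  exact Finset.mem_insert_self _ _

theorem st_right (E : Finset (T × (Σ i, K i) × M × T)) (P Q : T) : Q ∈ st E P Q := by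
  classical
  unfold st
  exact Finset.mem_insert_of_mem (Finset.mem_insert_self _ _)

open Classical in
/-- the restricted transitions -/
noncomputable def rs (E : Finset (T × (Σ i, K i) × M × T)) (P Q : T) :
    Finset ({t // t ∈ st E P Q} × (Σ i, K i) × M × {t // t ∈ st E P Q}) :=
  E.attach.image fun e =>
    (⟨e.1.1, st_fst P Q e.2⟩, e.1.2.1, e.1.2.2.1, ⟨e.1.2.2.2, st_snd P Q e.2⟩)

theorem rs_fwd {E : Finset (T × (Σ i, K i) × M × T)} {P Q : T}
    {p q : {t // t ∈ st E P Q}} {l : List (Σ i, K i)} {v : M} (h : LP (rs E P Q) p q l v) :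
    LP E p.1 q.1 l v := by
  classical
  induction h with
  | nil => exact LP.nil
  | cons hmem _ ih =>
    unfold rs at hmem
    rw [Finset.mem_image] at hmem
    obtain ⟨⟨⟨a, b, c, d⟩, he⟩, -, hx⟩ := hmem
    obtain ⟨x1, x2⟩ := Prod.mk.inj hx
    obtain ⟨x2, x3⟩ := Prod.mk.inj x2
    obtain ⟨x3, x4⟩ := Prod.mk.inj x3
    subst x1 x2 x3 x4
    exact LP.cons he ih

theorem rs_bwd {E : Finset (T × (Σ i, K i) × M × T)} {P Q : T}
    {p q : T} {l : List (Σ i, K i)} {v : M} (h : LP E p q l v) :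
    ∀ (hp : p ∈ st E P Q) (hq : q ∈ st E P Q), LP (rs E P Q) ⟨p, hp⟩ ⟨q, hq⟩ l v := by
  classical
  induction h with
  | nil => intro hp hq; exact LP.nil
  | cons hmem _ ih =>
    intro hp hq
    refine LP.cons (p' := ⟨_, st_snd P Q hmem⟩) ?_ (ih _ hq)
    unfold rs
    exact Finset.mem_image.2 ⟨⟨_, hmem⟩, Finset.mem_attach _ _, rfl⟩

end

theorem t_LETI : S_LETI := by
  classical
  intro I _ hI K _ M T _ _ E p q
  obtain ⟨i0⟩ := hI
  have hp : ((p, []) : T × List (Σ i, K i)) ∈ st (trn i0 E) (p, []) (q, []) := st_left _ _ _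
  have hq : ((q, []) : T × List (Σ i, K i)) ∈ st (trn i0 E) (p, []) (q, []) := st_right _ _ _
  refine ⟨{t // t ∈ st (trn i0 E) (p, []) (q, [])}, inferInstance,
    rs (trn i0 E) (p, []) (q, []), ⟨(p, []), hp⟩, ⟨(q, []), hq⟩, fun v => ⟨?_, ?_⟩⟩
  · intro h
    obtain ⟨l, h1, h2⟩ := bwd i0 E h
    exact ⟨l, rs_bwd h1 hp hq, h2⟩
  · rintro ⟨l, h1, h2⟩
    obtain ⟨h, h3, h4⟩ := fwd i0 E (rs_fwd h1) rfl
    have h5 : (l.map o).prod = 1 := h2
    rw [h5] at h4
    have h6 : h = 1 := by
      have h7 : (1 : Monoid.CoprodI K) = 1 * h := h4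
      rw [one_mul] at h7
      exact h7.symm
    rw [h6] at h3
    exact h3

end Pool.Agent.K1H75.SR2
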